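import Pool.Agent.Helper868.STS

/-!
# Smallest defining sets of the projective and affine Steiner triple systems: upper bounds

`P_n` (points and lines of `PG(n,2)`) has `b_n = (2^(n+1)-1)(2^(n+1)-2)/6` blocks and `A_n` (points and
lines of `AG(n,3)`) has `c_n = 3^n(3^n-1)/6` blocks. Let `s(D)` be the smallest size of a defining set.
We prove, for all `n`, `s(P_n) ≤ b_n - (3^n-1)/2` and `s(A_n) ≤ c_n - (7^n-1)/6`.
-/

set_option autoImplicit false
set_option linter.unusedSectionVars false

namespace Pool.Agent.Results.MP_95c763_co.GapFromAllBlocks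

open Finset

/-- A Steiner triple system with point set `X` and block collection `B`: every block is a 3-subset of
`X`, and every two distinct points of `X` lie in exactly one block. -/
def IsSTS {V : Type} [DecidableEq V] (X : Finset V) (B : Finset (Finset V)) : Prop :=
  (∀ b ∈ B, b ⊆ X ∧ b.card = 3) ∧ ∀ x ∈ X, ∀ y ∈ X, x ≠ y → ∃! b, b ∈ B ∧ x ∈ b ∧ y ∈ b

/-- `S` is a defining set of the Steiner triple system with point set `X` and block collection `D`:
`S` is a set of blocks of `D`, and `D` is the only Steiner triple system on `X` whose block collection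
contains `S`. -/
def IsDefiningSet {V : Type} [DecidableEq V] (X : Finset V) (D S : Finset (Finset V)) : Prop :=
  S ⊆ D ∧ ∀ B, IsSTS X B → S ⊆ B → B = D

/-- The smallest size of a defining set. -/
noncomputable def minDefiningSize {V : Type} [DecidableEq V] (X : Finset V)
    (D : Finset (Finset V)) : ℕ :=
  sInf {k | ∃ S, IsDefiningSet X D S ∧ S.card = k}

/-- The points of `P_n`: the nonzero vectors of `F_2^(n+1)`. -/
def pgPoints (n : ℕ) : Finset (Fin (n + 1) → ZMod 2) := Finset.univ.filter fun v => v ≠ 0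

/-- The blocks of `P_n`: the triples `{x, y, x+y}` of distinct nonzero vectors. -/
def pgLines (n : ℕ) : Finset (Finset (Fin (n + 1) → ZMod 2)) :=
  Finset.univ.filter fun b => ∃ x ∈ pgPoints n, ∃ y ∈ pgPoints n, x ≠ y ∧ b = {x, y, x + y}

/-- The points of `A_n`: the vectors of `F_3^n`. -/
def agPoints (n : ℕ) : Finset (Fin n → ZMod 3) := Finset.univ

/-- The blocks of `A_n`: the triples `{x, y, z}` of distinct vectors with `x + y + z = 0`. -/
def agLines (n : ℕ) : Finset (Finset (Fin n → ZMod 3)) :=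
  Finset.univ.filter fun b => ∃ x y z, x ≠ y ∧ x ≠ z ∧ y ≠ z ∧ x + y + z = 0 ∧ b = {x, y, z}

section Abstract

variable {V : Type} [DecidableEq V] {X : Finset V}

/-- A sum over the pairs of the blocks of a Steiner triple system. -/
lemma sum_blocks {B : Finset (Finset V)} (hB : IsSTS X B) (F : V × V → ℤ) :
    ∑ b ∈ B, ∑ p ∈ b.offDiag, F p = ∑ p ∈ X.offDiag, F p := by
  rw [← Finset.sum_biUnion]
  · refine Finset.sum_congr ?_ fun _ _ => rfl
    ext ⟨x, y⟩
    simp only [Finset.mem_biUnion, Finset.mem_offDiag]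
    constructor
    · rintro ⟨b, hb, hx, hy, hxy⟩
      exact ⟨(hB.1 b hb).1 hx, (hB.1 b hb).1 hy, hxy⟩
    · rintro ⟨hx, hy, hxy⟩
      obtain ⟨b, ⟨hb, h1, h2⟩, -⟩ := hB.2 x hx y hy hxy
      exact ⟨b, hb, h1, h2, hxy⟩
  · intro b hb c hc hbc
    change Disjoint b.offDiag c.offDiag
    rw [Finset.disjoint_left]
    rintro ⟨x, y⟩ h1 h2
    simp only [Finset.mem_offDiag] at h1 h2
    apply hbc
    exact (hB.2 x ((hB.1 b hb).1 h1.1) y ((hB.1 b hb).1 h1.2.1) h1.2.2).unique
      ⟨hb, h1.1, h1.2.1⟩ ⟨hc, h2.1, h2.2.1⟩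

/-- A Steiner triple system contained in another one is equal to it. -/
lemma eq_of_subset {B D : Finset (Finset V)} (hB : IsSTS X B) (hD : IsSTS X D) (h : D ⊆ B) :
    B = D := by
  apply Finset.Subset.antisymm _ h
  intro b hb
  obtain ⟨h1, h2⟩ := hB.1 b hb
  obtain ⟨x, y, z, hxy, -, -, hbe⟩ := Finset.card_eq_three.1 h2
  have hx : x ∈ b := by rw [hbe]; simp
  have hy : y ∈ b := by rw [hbe]; simp
  obtain ⟨c, ⟨hc1, hc2, hc3⟩, -⟩ := hD.2 x (h1 hx) y (h1 hy) hxy
  have := (hB.2 x (h1 hx) y (h1 hy) hxy).unique ⟨hb, hx, hy⟩ ⟨h hc1, hc2, hc3⟩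
  rw [this]
  exact hc1

/-- If the pairs can be weighted so that the blocks of `U ⊆ D` have weight zero and all the other
triples whose pairs are covered by `U` have positive weight, then `D \ U` is a defining set. -/
lemma defining_of_weight {D U : Finset (Finset V)} (hD : IsSTS X D) (hU : U ⊆ D)
    (F : V × V → ℤ) (h0 : ∀ b ∈ U, ∑ p ∈ b.offDiag, F p = 0)
    (h1 : ∀ b : Finset V, b ⊆ X → b.card = 3 →
      (∀ x ∈ b, ∀ y ∈ b, x ≠ y → ∃ u ∈ U, x ∈ u ∧ y ∈ u) → b ∉ D → 0 < ∑ p ∈ b.offDiag, F p) :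
    IsDefiningSet X D (D \ U) := by
  refine ⟨Finset.sdiff_subset, fun B hB hSB => ?_⟩
  have key : ∀ b ∈ B, b ∉ D \ U → ∀ x ∈ b, ∀ y ∈ b, x ≠ y → ∃ u ∈ U, x ∈ u ∧ y ∈ u := by
    intro b hb hbn x hx y hy hxy
    have hxX := (hB.1 b hb).1 hx
    have hyX := (hB.1 b hb).1 hy
    obtain ⟨c, ⟨hc, hc1, hc2⟩, -⟩ := hD.2 x hxX y hyX hxy
    by_cases hcU : c ∈ U
    · exact ⟨c, hcU, hc1, hc2⟩
    · exfalso
      have hcS : c ∈ D \ U := Finset.mem_sdiff.2 ⟨hc, hcU⟩
      have := (hB.2 x hxX y hyX hxy).unique ⟨hb, hx, hy⟩ ⟨hSB hcS, hc1, hc2⟩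
      rw [this] at hbn
      exact hbn hcS
  have hs : ∑ b ∈ B \ (D \ U), ∑ p ∈ b.offDiag, F p = 0 := by
    have e1 := Finset.sum_sdiff hSB (f := fun b => ∑ p ∈ b.offDiag, F p)
    have e2 := Finset.sum_sdiff hU (f := fun b => ∑ p ∈ b.offDiag, F p)
    rw [sum_blocks hB] at e1
    rw [sum_blocks hD, Finset.sum_eq_zero h0, add_zero] at e2
    linarith
  have hBD : B ⊆ D := by
    intro b hb
    by_contra hbD
    have hbn : b ∉ D \ U := fun h => hbD (Finset.mem_sdiff.1 h).1
    have hpos := h1 b (hB.1 b hb).1 (hB.1 b hb).2 (key b hb hbn) hbD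
    have hnn : ∀ c ∈ B \ (D \ U), 0 ≤ ∑ p ∈ c.offDiag, F p := by
      intro c hc
      rw [Finset.mem_sdiff] at hc
      by_cases hcD : c ∈ D
      · have hcU : c ∈ U := by
          by_contra hcU
          exact hc.2 (Finset.mem_sdiff.2 ⟨hcD, hcU⟩)
        exact (h0 c hcU).ge
      · exact (h1 c (hB.1 c hc.1).1 (hB.1 c hc.1).2 (key c hc.1 hc.2) hcD).le
    have := (Finset.sum_eq_zero_iff_of_nonneg hnn).1 hs b (Finset.mem_sdiff.2 ⟨hb, hbn⟩)
    omega
  exact (eq_of_subset hD hB hBD).symm

/-- The whole block collection is a defining set. -/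
lemma whole_defining {D : Finset (Finset V)} (hD : IsSTS X D) : IsDefiningSet X D D :=
  ⟨Finset.Subset.refl _, fun _ hB h => eq_of_subset hB hD h⟩

lemma exists_min {D : Finset (Finset V)} (hD : IsSTS X D) :
    ∃ S, IsDefiningSet X D S ∧ S.card = minDefiningSize X D := by
  have h : {k | ∃ S, IsDefiningSet X D S ∧ S.card = k}.Nonempty := ⟨_, D, whole_defining hD, rfl⟩
  exact Nat.sInf_mem h

lemma min_le {D S : Finset (Finset V)} (hS : IsDefiningSet X D S) : minDefiningSize X D ≤ S.card :=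
  Nat.sInf_le ⟨S, hS, rfl⟩

end Abstract

section Coord

open Pool.Agent.Helper868.STS (zeroTriples Closed mem_zeroTriples zero_triple_of_pair zero_triple_eq
  zeroTriples_isSTS pairsOf card_pairsOf)

lemma offDiag_three {V : Type} [DecidableEq V] {x y z : V} (hxy : x ≠ y) (hxz : x ≠ z)
    (hyz : y ≠ z) (f : V × V → ℤ) : ∑ p ∈ ({x, y, z} : Finset V).offDiag, f p =
      f (x, y) + f (x, z) + f (y, x) + f (y, z) + f (z, x) + f (z, y) := by
  have h : ({x, y, z} : Finset V).offDiag = {(x, y), (x, z), (y, x), (y, z), (z, x), (z, y)} := by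
    ext ⟨a, b⟩
    simp only [Finset.mem_offDiag, Finset.mem_insert, Finset.mem_singleton, Prod.mk.injEq]
    constructor
    · rintro ⟨rfl | rfl | rfl, rfl | rfl | rfl, h⟩ <;> simp_all
    · rintro (⟨rfl, rfl⟩ | ⟨rfl, rfl⟩ | ⟨rfl, rfl⟩ | ⟨rfl, rfl⟩ | ⟨rfl, rfl⟩ | ⟨rfl, rfl⟩) <;>
        simp_all [Ne.symm]
  rw [h]
  rw [Finset.sum_insert, Finset.sum_insert, Finset.sum_insert, Finset.sum_insert,
    Finset.sum_insert, Finset.sum_singleton]
  · ring
  all_goals
    simp only [Finset.mem_insert, Finset.mem_singleton, Prod.mk.injEq, not_or, not_and]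
    tauto

variable {q m : ℕ} [NeZero q] (S : ZMod q → ZMod q → Prop) [∀ a b, Decidable (S a b)]

/-- the omitted blocks: every two of its points are in the relation `S` in every coordinate -/
def UU (X : Finset (Fin m → ZMod q)) : Finset (Finset (Fin m → ZMod q)) :=
  (zeroTriples X).filter fun b => ∀ x ∈ b, ∀ y ∈ b, x ≠ y → ∀ i, S (x i) (y i)

/-- the six values of the local weight -/
def psi (φ : ZMod q → ZMod q → ℤ) (a b c : ZMod q) : ℤ :=
  φ a b + φ a c + φ b a + φ b c + φ c a + φ c b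

lemma sum_weight {x y z : Fin m → ZMod q} (hxy : x ≠ y) (hxz : x ≠ z) (hyz : y ≠ z)
    (φ : ZMod q → ZMod q → ℤ) :
    ∑ p ∈ ({x, y, z} : Finset (Fin m → ZMod q)).offDiag, ∑ i, φ (p.1 i) (p.2 i) =
      ∑ i, psi φ (x i) (y i) (z i) := by
  rw [Finset.sum_comm]
  refine Finset.sum_congr rfl fun i _ => ?_
  rw [offDiag_three hxy hxz hyz]
  rfl

theorem UU_defining {X : Finset (Fin m → ZMod q)} (hX : Closed X) (φ : ZMod q → ZMod q → ℤ)
    (h0 : ∀ a b c, S a b → S a c → S b c → a + b + c = 0 → psi φ a b c = 0)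
    (h1 : ∀ a b c, S a b → S a c → S b c → a + b + c ≠ 0 → 0 < psi φ a b c) :
    IsDefiningSet X (zeroTriples X) (zeroTriples X \ UU S X) := by
  refine defining_of_weight (zeroTriples_isSTS hX) (Finset.filter_subset _ _)
    (fun p => ∑ i, φ (p.1 i) (p.2 i)) ?_ ?_
  · intro b hb
    unfold UU at hb
    rw [Finset.mem_filter] at hb
    obtain ⟨hb1, hb2⟩ := hb
    obtain ⟨-, h3, hs⟩ := mem_zeroTriples.1 hb1
    obtain ⟨x, y, z, hxy, hxz, hyz, rfl⟩ := Finset.card_eq_three.1 h3
    rw [sum_weight hxy hxz hyz]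
    rw [(Pool.Agent.Helper868.STS.triple_sum hxy hxz.symm hyz.symm).2] at hs
    refine Finset.sum_eq_zero fun i _ => ?_
    exact h0 _ _ _ (hb2 x (by simp) y (by simp) hxy i) (hb2 x (by simp) z (by simp) hxz i)
      (hb2 y (by simp) z (by simp) hyz i) (congrFun hs i)
  · intro b hbX h3 hcov hbD
    obtain ⟨x, y, z, hxy, hxz, hyz, rfl⟩ := Finset.card_eq_three.1 h3
    rw [sum_weight hxy hxz hyz]
    have hS : ∀ u ∈ ({x, y, z} : Finset (Fin m → ZMod q)), ∀ v ∈ ({x, y, z} :
        Finset (Fin m → ZMod q)), u ≠ v → ∀ i, S (u i) (v i) := by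
      intro u hu v hv huv i
      obtain ⟨w, hw, huw, hvw⟩ := hcov u hu v hv huv
      unfold UU at hw
      rw [Finset.mem_filter] at hw
      exact hw.2 u huw v hvw huv i
    have hne : x + y + z ≠ 0 := by
      intro h
      apply hbD
      rw [mem_zeroTriples]
      refine ⟨hbX, h3, ?_⟩
      rw [(Pool.Agent.Helper868.STS.triple_sum hxy hxz.symm hyz.symm).2]
      exact h
    obtain ⟨i, hi⟩ : ∃ i, x i + y i + z i ≠ 0 := by
      by_contra hcon
      push Not at hcon
      exact hne (funext hcon)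
    have hxy' := fun i => hS x (by simp) y (by simp) hxy i
    have hxz' := fun i => hS x (by simp) z (by simp) hxz i
    have hyz' := fun i => hS y (by simp) z (by simp) hyz i
    refine Finset.sum_pos' (fun j _ => ?_) ⟨i, Finset.mem_univ _, ?_⟩
    · by_cases hj : x j + y j + z j = 0
      · exact (h0 _ _ _ (hxy' j) (hxz' j) (hyz' j) hj).ge
      · exact (h1 _ _ _ (hxy' j) (hxz' j) (hyz' j) hj).le
    · exact h1 _ _ _ (hxy' i) (hxz' i) (hyz' i) hi

theorem pairsOf_UU {X : Finset (Fin m → ZMod q)} (hX : Closed X)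
    (h2 : ∀ a b, S a b → S b a) (h3 : ∀ a b, S a b → S a (-(a + b))) :
    pairsOf (UU S X) = X.offDiag.filter fun p => ∀ i, S (p.1 i) (p.2 i) := by
  ext ⟨x, y⟩
  unfold pairsOf UU
  simp only [Finset.mem_biUnion, Finset.mem_filter, Finset.mem_offDiag]
  constructor
  · rintro ⟨b, ⟨hb, hb2⟩, hx, hy, hxy⟩
    have := (mem_zeroTriples.1 hb).1
    exact ⟨⟨this hx, this hy, hxy⟩, hb2 x hx y hy hxy⟩
  · rintro ⟨⟨hx, hy, hxy⟩, hS⟩
    refine ⟨{x, y, -(x + y)}, ⟨zero_triple_of_pair hX hx hy hxy, ?_⟩, by simp, by simp, hxy⟩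
    have hz1 : ∀ i, S (x i) ((-(x + y)) i) := fun i => h3 _ _ (hS i)
    have hz2 : ∀ i, S (y i) ((-(x + y)) i) := fun i => by
      have := h3 _ _ (h2 _ _ (hS i))
      rw [add_comm] at this
      exact this
    intro u hu v hv huv i
    simp only [Finset.mem_insert, Finset.mem_singleton] at hu hv
    rcases hu with rfl | rfl | rfl <;> rcases hv with rfl | rfl | rfl
    · exact absurd rfl huv
    · exact hS i
    · exact hz1 i
    · exact h2 _ _ (hS i)
    · exact absurd rfl huv
    · exact hz2 i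
    · exact h2 _ _ (hz1 i)
    · exact h2 _ _ (hz2 i)
    · exact absurd rfl huv

/-- the number of the pairs of vectors in the relation `S` in every coordinate -/
theorem card_rel (k : ℕ) (hk : (Finset.univ.filter fun p : ZMod q × ZMod q => S p.1 p.2).card = k) :
    (Finset.univ.filter fun p : (Fin m → ZMod q) × (Fin m → ZMod q) =>
      ∀ i, S (p.1 i) (p.2 i)).card = k ^ m := by
  have h1 : (Finset.univ.filter fun p : (Fin m → ZMod q) × (Fin m → ZMod q) =>
      ∀ i, S (p.1 i) (p.2 i)) = (Fintype.piFinset fun _ : Fin m =>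
        Finset.univ.filter fun p : ZMod q × ZMod q => S p.1 p.2).map
        (Equiv.arrowProdEquivProdArrow (Fin m) (fun _ => ZMod q) (fun _ => ZMod q)).toEmbedding := by
    ext ⟨x, y⟩
    simp only [Finset.mem_filter, Finset.mem_univ, true_and, Finset.mem_map,
      Fintype.mem_piFinset, Equiv.coe_toEmbedding]
    constructor
    · intro h
      exact ⟨fun i => (x i, y i), h, rfl⟩
    · rintro ⟨f, hf, hfe⟩ i
      have e1 : x = fun i => (f i).1 := (congrArg Prod.fst hfe).symm
      have e2 : y = fun i => (f i).2 := (congrArg Prod.snd hfe).symm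
      rw [e1, e2]
      exact hf i
  rw [h1, Finset.card_map, Fintype.card_piFinset, Finset.prod_const, hk, Finset.card_univ,
    Fintype.card_fin]

/-- the upper bound -/
theorem upper {X : Finset (Fin m → ZMod q)} (hX : Closed X) (φ : ZMod q → ZMod q → ℤ)
    (h0 : ∀ a b c, S a b → S a c → S b c → a + b + c = 0 → psi φ a b c = 0)
    (h1 : ∀ a b c, S a b → S a c → S b c → a + b + c ≠ 0 → 0 < psi φ a b c)
    (h2 : ∀ a b, S a b → S b a) (h3 : ∀ a b, S a b → S a (-(a + b))) :
    6 * minDefiningSize X (zeroTriples X) +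
      (X.offDiag.filter fun p => ∀ i, S (p.1 i) (p.2 i)).card ≤ 6 * (zeroTriples X).card := by
  have hd := min_le (UU_defining S hX φ h0 h1)
  have hsub : UU S X ⊆ zeroTriples X := Finset.filter_subset _ _
  have hc := card_pairsOf hsub
  rw [pairsOf_UU S hX h2 h3] at hc
  rw [hc]
  have h4 := Finset.card_sdiff_add_card_eq_card hsub
  omega

end Coord

/-! ### The projective systems -/

open Pool.Agent.Helper868.STS (zeroTriples Closed)

lemma neg_vec {m : ℕ} (x : Fin m → ZMod 2) : -x = x := by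
  rw [neg_eq_iff_add_eq_zero]
  funext i
  exact CharTwo.add_self_eq_zero (x i)

lemma mem_pgPoints {n : ℕ} {v : Fin (n + 1) → ZMod 2} : v ∈ pgPoints n ↔ v ≠ 0 := by
  simp [pgPoints]

lemma closed_pg (n : ℕ) : Closed (pgPoints n) := by
  intro x hx y hy hxy
  rw [mem_pgPoints] at hx hy ⊢
  rw [neg_vec]
  refine ⟨fun h => hxy ?_, fun h => hy ?_, fun h => hx ?_⟩
  · rw [← neg_vec y]
    exact eq_neg_of_add_eq_zero_left h
  · simpa using h
  · simpa using h

lemma pgLines_eq (n : ℕ) : pgLines n = zeroTriples (pgPoints n) := by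
  ext b
  simp only [pgLines, Finset.mem_filter, Finset.mem_univ, true_and]
  constructor
  · rintro ⟨x, hx, y, hy, hxy, rfl⟩
    have := Pool.Agent.Helper868.STS.zero_triple_of_pair (closed_pg n) hx hy hxy
    rwa [neg_vec] at this
  · intro hb
    obtain ⟨h1, h2, -⟩ := Pool.Agent.Helper868.STS.mem_zeroTriples.1 hb
    obtain ⟨x, y, z, hxy, -, -, hbe⟩ := Finset.card_eq_three.1 h2
    have hx : x ∈ b := by rw [hbe]; simp
    have hy : y ∈ b := by rw [hbe]; simp
    refine ⟨x, h1 hx, y, h1 hy, hxy, ?_⟩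
    have := Pool.Agent.Helper868.STS.zero_triple_eq hb hx hy hxy
    rwa [neg_vec] at this

/-- `P_n` is a Steiner triple system. -/
theorem pg_isSTS (n : ℕ) : IsSTS (pgPoints n) (pgLines n) := by
  rw [pgLines_eq]
  exact Pool.Agent.Helper868.STS.zeroTriples_isSTS (closed_pg n)

lemma card_pgPoints (n : ℕ) : (pgPoints n).card = 2 ^ (n + 1) - 1 := by
  have h : pgPoints n = Finset.univ.erase 0 := by
    ext v
    simp [mem_pgPoints]
  rw [h, Finset.card_erase_of_mem (Finset.mem_univ _), Finset.card_univ, Fintype.card_fun,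
    ZMod.card, Fintype.card_fin]

lemma six_mul_card {X : ℕ} : X * X - X = X * (X - 1) := by
  rw [Nat.mul_sub, mul_one]

/-- the number of blocks of `P_n` -/
theorem card_pgLines (n : ℕ) : 6 * (pgLines n).card = (2 ^ (n + 1) - 1) * (2 ^ (n + 1) - 2) := by
  have h := Pool.Agent.Helper868.STS.six_card (closed_pg n)
  rw [← pgLines_eq, card_pgPoints, six_mul_card, Nat.sub_sub] at h
  exact h

/-! ### The affine systems -/

lemma closed_ag (n : ℕ) : Closed (agPoints n) := by
  intro x _ y _ hxy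
  have h3 : ∀ v : Fin n → ZMod 3, v + v + v = 0 := by
    intro v
    funext i
    have : ∀ a : ZMod 3, a + a + a = 0 := by decide
    exact this (v i)
  refine ⟨Finset.mem_univ _, fun h => hxy ?_, fun h => hxy ?_⟩
  · have h1 : x + x + y = 0 := by
      rw [add_assoc]
      exact (congrArg (· + (x + y)) h).symm.trans (neg_add_cancel _)
    have h2 : x + x + x = x + x + y := by rw [h3, h1]
    exact add_left_cancel h2
  · have h1 : x + y + y = 0 := by
      have h2 : (x + y) + y = (x + y) + -(x + y) := by rw [h]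
      rw [add_neg_cancel] at h2
      exact h2
    have h2 : x + y + y = y + y + y := by rw [h3, h1]
    exact add_right_cancel (add_right_cancel h2)

lemma agLines_eq (n : ℕ) : agLines n = zeroTriples (agPoints n) := by
  ext b
  simp only [agLines, Finset.mem_filter, Finset.mem_univ, true_and]
  rw [Pool.Agent.Helper868.STS.mem_zeroTriples]
  constructor
  · rintro ⟨x, y, z, hxy, hxz, hyz, h0, rfl⟩
    obtain ⟨h1, h2⟩ := Pool.Agent.Helper868.STS.triple_sum hxy hxz.symm hyz.symm
    exact ⟨fun _ _ => Finset.mem_univ _, h1, by rw [h2, h0]⟩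
  · rintro ⟨-, h2, hs⟩
    obtain ⟨x, y, z, hxy, hxz, hyz, rfl⟩ := Finset.card_eq_three.1 h2
    rw [(Pool.Agent.Helper868.STS.triple_sum hxy hxz.symm hyz.symm).2] at hs
    exact ⟨x, y, z, hxy, hxz, hyz, hs, rfl⟩

/-- `A_n` is a Steiner triple system. -/
theorem ag_isSTS (n : ℕ) : IsSTS (agPoints n) (agLines n) := by
  rw [agLines_eq]
  exact Pool.Agent.Helper868.STS.zeroTriples_isSTS (closed_ag n)

/-- the number of blocks of `A_n` -/
theorem card_agLines (n : ℕ) : 6 * (agLines n).card = 3 ^ n * (3 ^ n - 1) := by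
  have h := Pool.Agent.Helper868.STS.six_card (closed_ag n)
  rw [← agLines_eq, six_mul_card] at h
  have h1 : (agPoints n).card = 3 ^ n := by
    unfold agPoints
    rw [Finset.card_univ, Fintype.card_fun, ZMod.card, Fintype.card_fin]
  rw [h1] at h
  exact h

/-! ### The bounds -/

/-- not both zero -/
def SP (a b : ZMod 2) : Prop := a ≠ 0 ∨ b ≠ 0

instance (a b : ZMod 2) : Decidable (SP a b) := by unfold SP; infer_instance

/-- the weight for the projective systems -/
def phiP (a b : ZMod 2) : ℤ := if a = b then 2 else -1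

/-- not both one, not both two -/
def SA (a b : ZMod 3) : Prop := a ≠ b ∨ a = 0

instance (a b : ZMod 3) : Decidable (SA a b) := by unfold SA; infer_instance

/-- the weight for the affine systems -/
def phiA (a b : ZMod 3) : ℤ := if a = b then 0 else if a = 0 ∨ b = 0 then 1 else -2

/-- the upper bound for the projective systems -/
theorem upper_pg (n : ℕ) :
    6 * minDefiningSize (pgPoints n) (pgLines n) + (3 ^ (n + 1) - 3) ≤ 6 * (pgLines n).card := by
  have h := upper SP (closed_pg n) phiP (by decide) (by decide) (by decide) (by decide)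
  rw [← pgLines_eq] at h
  refine le_trans (Nat.add_le_add_left ?_ _) h
  have h1 := card_rel (m := n + 1) SP 3 (by decide)
  have h2 : (Finset.univ.filter fun p : (Fin (n + 1) → ZMod 2) × (Fin (n + 1) → ZMod 2) =>
      ∀ i, SP (p.1 i) (p.2 i)) ⊆ ((pgPoints n).offDiag.filter fun p => ∀ i, SP (p.1 i) (p.2 i)) ∪
        {(0, 1), (1, 0), (1, 1)} := by
    rintro ⟨x, y⟩ hp
    rw [Finset.mem_filter] at hp
    have hp := hp.2
    rw [Finset.mem_union]
    have hb : ∀ a : ZMod 2, a ≠ 0 → a = 1 := by decide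
    by_cases hx : x = 0
    · right
      have hy : y = 1 := by
        funext i
        have := hp i
        rw [hx] at this
        rcases this with h' | h'
        · exact absurd rfl h'
        · exact hb _ h'
      rw [hx, hy]
      simp
    · by_cases hy : y = 0
      · right
        have hx : x = 1 := by
          funext i
          have := hp i
          rw [hy] at this
          rcases this with h' | h'
          · exact hb _ h'
          · exact absurd rfl h'
        rw [hx, hy]
        simp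
      · by_cases hxy : x = y
        · right
          have hx : x = 1 := by
            funext i
            have := hp i
            rw [← hxy] at this
            rcases this with h' | h' <;> exact hb _ h'
          rw [← hxy, hx]
          simp
        · left
          rw [Finset.mem_filter, Finset.mem_offDiag, mem_pgPoints, mem_pgPoints]
          exact ⟨⟨hx, hy, hxy⟩, hp⟩
  have h3 := (Finset.card_le_card h2).trans (Finset.card_union_le _ _)
  rw [h1] at h3
  have h4 : ({(0, 1), (1, 0), (1, 1)} :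
      Finset ((Fin (n + 1) → ZMod 2) × (Fin (n + 1) → ZMod 2))).card ≤ 3 :=
    Finset.card_le_three
  omega

/-- the upper bound for the affine systems -/
theorem upper_ag (n : ℕ) :
    6 * minDefiningSize (agPoints n) (agLines n) + (7 ^ n - 1) ≤ 6 * (agLines n).card := by
  have h := upper SA (closed_ag n) phiA (by decide) (by decide) (by decide) (by decide)
  rw [← agLines_eq] at h
  refine le_trans (Nat.add_le_add_left ?_ _) h
  have h1 := card_rel (m := n) SA 7 (by decide)
  have h2 : (Finset.univ.filter fun p : (Fin n → ZMod 3) × (Fin n → ZMod 3) =>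
      ∀ i, SA (p.1 i) (p.2 i)) ⊆ ((agPoints n).offDiag.filter fun p => ∀ i, SA (p.1 i) (p.2 i)) ∪
        {(0, 0)} := by
    rintro ⟨x, y⟩ hp
    rw [Finset.mem_filter] at hp
    have hp := hp.2
    rw [Finset.mem_union]
    by_cases hxy : x = y
    · right
      have hx : x = 0 := by
        funext i
        have := hp i
        rw [← hxy] at this
        rcases this with h' | h'
        · exact absurd rfl h'
        · exact h'
      rw [← hxy, hx]
      simp
    · left
      rw [Finset.mem_filter, Finset.mem_offDiag]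
      exact ⟨⟨Finset.mem_univ _, Finset.mem_univ _, hxy⟩, hp⟩
  have h3 := (Finset.card_le_card h2).trans (Finset.card_union_le _ _)
  rw [h1, Finset.card_singleton] at h3
  omega

/-- **The smallest defining sets of the projective and affine Steiner triple systems.** -/
theorem result :
    (∀ n, (minDefiningSize (pgPoints n) (pgLines n) : ℝ) ≤
      ((2 : ℝ) ^ (n + 1) - 1) * ((2 : ℝ) ^ (n + 1) - 2) / 6 - ((3 : ℝ) ^ n - 1) / 2) ∧
    (∀ n, (minDefiningSize (agPoints n) (agLines n) : ℝ) ≤
      (3 : ℝ) ^ n * ((3 : ℝ) ^ n - 1) / 6 - ((7 : ℝ) ^ n - 1) / 6) := by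
  have hp : ∀ n, ((pgLines n).card : ℝ) = ((2 : ℝ) ^ (n + 1) - 1) * ((2 : ℝ) ^ (n + 1) - 2) / 6 := by
    intro n
    have h1 := card_pgLines n
    have h2 : 2 ≤ 2 ^ (n + 1) := by
      calc 2 = 2 ^ 1 := (pow_one 2).symm
        _ ≤ 2 ^ (n + 1) := Nat.pow_le_pow_right (by norm_num) (by omega)
    have h3 : (6 : ℝ) * (pgLines n).card = ((2 : ℝ) ^ (n + 1) - 1) * ((2 : ℝ) ^ (n + 1) - 2) := by
      have h4 : ((6 * (pgLines n).card : ℕ) : ℝ) =
          (((2 ^ (n + 1) - 1) * (2 ^ (n + 1) - 2) : ℕ) : ℝ) := by rw [h1]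
      push_cast [Nat.cast_sub (show 1 ≤ 2 ^ (n + 1) by omega), Nat.cast_sub h2] at h4
      exact h4
    linarith
  have ha : ∀ n, ((agLines n).card : ℝ) = (3 : ℝ) ^ n * ((3 : ℝ) ^ n - 1) / 6 := by
    intro n
    have h1 := card_agLines n
    have h2 : 1 ≤ 3 ^ n := Nat.one_le_pow _ _ (by norm_num)
    have h3 : (6 : ℝ) * (agLines n).card = (3 : ℝ) ^ n * ((3 : ℝ) ^ n - 1) := by
      have h4 : ((6 * (agLines n).card : ℕ) : ℝ) = ((3 ^ n * (3 ^ n - 1) : ℕ) : ℝ) := by rw [h1]
      push_cast [Nat.cast_sub h2] at h4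
      exact h4
    linarith
  refine ⟨?_, ?_⟩
  · intro n
    have h1 := upper_pg n
    rw [← hp]
    have h2 : 3 ≤ 3 ^ (n + 1) := by
      calc 3 = 3 ^ 1 := (pow_one 3).symm
        _ ≤ 3 ^ (n + 1) := Nat.pow_le_pow_right (by norm_num) (by omega)
    have h3 : ((6 * minDefiningSize (pgPoints n) (pgLines n) + (3 ^ (n + 1) - 3) : ℕ) : ℝ) ≤
        ((6 * (pgLines n).card : ℕ) : ℝ) := by exact_mod_cast h1
    push_cast [Nat.cast_sub h2] at h3
    have h4 : (3 : ℝ) ^ (n + 1) = 3 * 3 ^ n := by ring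
    linarith
  · intro n
    have h1 := upper_ag n
    rw [← ha]
    have h2 : 1 ≤ 7 ^ n := Nat.one_le_pow _ _ (by norm_num)
    have h3 : ((6 * minDefiningSize (agPoints n) (agLines n) + (7 ^ n - 1) : ℕ) : ℝ) ≤
        ((6 * (agLines n).card : ℕ) : ℝ) := by exact_mod_cast h1
    push_cast [Nat.cast_sub h2] at h3
    linarith

end Pool.Agent.Results.MP_95c763_co.GapFromAllBlocks
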